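import Mathlib
import Pool.Agent.TH26.Canc.Proper

/-!
# The cancellation law fails for equidecomposability with Borel pieces

The infinite dihedral group generated by the reflections `x ↦ -x` and `x ↦ -√2 - x` of the circle
`ℝ/ℤ` acts freely on the co-countable set `X` of points fixed by no reflection `x ↦ k √2 - x`.
Both half circles `A = {Im exp(2πix) > 0}` and `B = {Im exp(2πi(x + √2/2)) > 0}` satisfy
`2 [A] = [X] = 2 [B]`.  If `[A] = [B]` with Borel pieces, there is a Borel function
`m : X → ℤ` with `m(x) + m(-x) = 1 = m(x) + m(-√2 - x)`; it is invariant under an irrational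
rotation, so it is almost everywhere equal to a constant `c` with `2 c = 1`.
-/

set_option autoImplicit false

namespace Pool.Agent.Results.MP_3fd8c4_al.BorelCancellationFails

open Pool.Agent.TH26.Canc

/-- There are a standard Borel space `X` with a free action of the infinite dihedral group such
that the algebra `𝒜` of the Borel sets of `X` is invariant and proper and such that in the type
semigroup of `𝒜` there are types `α ≠ β` with `2 α = 2 β`. -/
theorem result :
    ∃ (X : Type) (_ : MeasurableSpace X) (_ : StandardBorelSpace X)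
      (_ : MulAction (DihedralGroup 0) X) (𝒜 : InvAlg (DihedralGroup 0) X),
      (∀ g : DihedralGroup 0, g ≠ 1 → ∀ x : X, g • x ≠ x) ∧
      (∀ A : Set X, A ∈ 𝒜.sets ↔ MeasurableSet A) ∧ 𝒜.sets ≠ Set.univ ∧
      (∃ α β : 𝒜.TypeSemigroup, 2 • α = 2 • β ∧ α ≠ β) ∧ ¬ 𝒜.CancellationLaw := by
  refine ⟨Pt, inferInstance, measurableSet_good.standardBorel, inferInstance, borelAlg,
    fun g hg x => smul_ne hg x, fun A => Iff.rfl, ?_, ?_, not_cancellation⟩
  · intro h
    obtain ⟨A, hA⟩ := exists_not_measurable
    apply hA
    have : A ∈ borelAlg.sets := by rw [h]; exact Set.mem_univ A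
    exact this
  · refine ⟨borelAlg.type (lv (half 0)) (lv_star _ (half_mem 0)),
      borelAlg.type (lv (half be)) (lv_star _ (half_mem be)), ?_, ?_⟩
    · rw [two_nsmul_type borelAlg (half_mem 0) (DihedralGroup.sr 0)
          (half_compl 0 0 (by rw [toZ_zero]; simp)),
        two_nsmul_type borelAlg (half_mem be) (DihedralGroup.sr 1) (half_compl be 1 be_add)]
    · intro h
      exact not_equidec ((type_eq_iff _ _ _).1 h)

end Pool.Agent.Results.MP_3fd8c4_al.BorelCancellationFails
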